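import Pool.Agent.H85.JSU.Main

/-!
# A subspace of `L^4` without copies of `ℓ^4(I)`, `I` uncountable, that embeds in no `L^4` of a
finite measure

Question of Johnson and Schechtman on subspaces of `L^p`, `2 < p < ∞`; negative answer.
-/

set_option autoImplicit false

open MeasureTheory
open scoped ENNReal

universe u v

namespace Pool.Agent.Results.MP_c5a70e_an.NoFiniteMeasure

/-- The real normed space `X` contains a copy of the real normed space `Y`: some closed linear
subspace of `X` is linearly isomorphic (linearly homeomorphic) to `Y`. -/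
def ContainsCopy (X : Type*) [NormedAddCommGroup X] [NormedSpace ℝ X]
    (Y : Type*) [NormedAddCommGroup Y] [NormedSpace ℝ Y] : Prop :=
  ∃ Z : Submodule ℝ X, IsClosed (Z : Set X) ∧ Nonempty (Y ≃L[ℝ] Z)

/-- The real normed space `Y` embeds in the real normed space `X`: it is isomorphic to a closed
linear subspace of `X`. -/
def EmbedsIn (Y : Type*) [NormedAddCommGroup Y] [NormedSpace ℝ Y]
    (X : Type*) [NormedAddCommGroup X] [NormedSpace ℝ X] : Prop :=
  ContainsCopy X Y

/-- an embedding is bounded below -/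
theorem bounded_below {X : Type*} [NormedAddCommGroup X] [NormedSpace ℝ X]
    {Y : Type*} [NormedAddCommGroup Y] [NormedSpace ℝ Y] (h : ContainsCopy X Y) :
    ∃ (T : Y →L[ℝ] X) (c : ℝ), 0 < c ∧ ∀ y, c * ‖y‖ ≤ ‖T y‖ := by
  obtain ⟨Z, -, ⟨e⟩⟩ := h
  refine ⟨Z.subtypeL.comp (e : Y →L[ℝ] Z), (‖(e.symm : Z →L[ℝ] Y)‖ + 1)⁻¹, ?_, fun y => ?_⟩
  · have := ContinuousLinearMap.opNorm_nonneg (e.symm : Z →L[ℝ] Y)
    positivity
  · have h0 : 0 ≤ ‖(e.symm : Z →L[ℝ] Y)‖ := ContinuousLinearMap.opNorm_nonneg _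
    have h1 : ‖y‖ ≤ ‖(e.symm : Z →L[ℝ] Y)‖ * ‖e y‖ := by
      have := (e.symm : Z →L[ℝ] Y).le_opNorm (e y)
      simpa using this
    have h2 : ‖(Z.subtypeL.comp (e : Y →L[ℝ] Z)) y‖ = ‖e y‖ := rfl
    rw [h2, inv_mul_le_iff₀ (by linarith)]
    have h3 : 0 ≤ ‖e y‖ := norm_nonneg _
    linarith

/-- `1 ≤ 4`, used for the norm of `L^4`. -/
instance fact14 : Fact ((1 : ℝ≥0∞) ≤ 4) := ⟨by norm_num⟩

/-- There are a measure `m` and a closed linear subspace `X` of the real space `L^4(m)` such that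
`X` contains no copy of `ℓ^4(I)` for any uncountable index set `I` (in particular for the set `ω₁`
of the countable ordinals), and `X` does not embed in `L^4(ν)` for any finite measure `ν`. -/
theorem result :
    ∃ (Ω : Type) (_ : MeasurableSpace Ω) (m : Measure Ω) (X : Submodule ℝ (Lp ℝ 4 m)),
      IsClosed (X : Set (Lp ℝ 4 m)) ∧
      (∀ (I : Type u) [Uncountable I], ¬ ContainsCopy X (lp (fun _ : I => ℝ) 4)) ∧
      ∀ (Ω' : Type v) [MeasurableSpace Ω'] (ν : Measure Ω') [IsFiniteMeasure ν],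
        ¬ EmbedsIn X (Lp ℝ 4 ν) := by
  refine ⟨Pool.Agent.H56.JS.Om, inferInstance, Pool.Agent.H56.JS.mm, Pool.Agent.H56.JS.XX,
    Pool.Agent.H56.JS.isClosed_XX, ?_, ?_⟩
  · intro I _ h
    obtain ⟨T, c, hc, hT⟩ := bounded_below h
    exact Pool.Agent.H85.JSU.no_copy I T c hc hT
  · intro Ω' _ ν _ h
    obtain ⟨T, c, hc, hT⟩ := bounded_below h
    exact Pool.Agent.H85.JSU.no_embedding ν T c hc hT

end Pool.Agent.Results.MP_c5a70e_an.NoFiniteMeasure
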